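import Pool.Agent.W761.CB.Stms

set_option autoImplicit false
set_option maxHeartbeats 400000

open MeasureTheory
open scoped ENNReal

namespace Pool.Agent.W135.CB

open Pool.Agent.W761.CB

variable {n : ℕ} {L : ℝ}

lemma dom_eq (n : ℕ) (L : ℝ) :
    {z : Fin n → ℝ | ∀ c, -(L / 2) < z c ∧ z c ≤ L / 2} =
      Set.univ.pi fun _ : Fin n => Set.Ioc (-(L / 2)) (-(L / 2) + L) := by
  ext z
  simp only [Set.mem_ofPred_eq, Set.mem_pi, Set.mem_univ, true_implies, Set.mem_Ioc]
  have : -(L / 2) + L = L / 2 := by ring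
  rw [this]

lemma mp_pr (n : ℕ) (L : ℝ) [Fact (0 < L)] :
    MeasurePreserving (pr (n := n) L)
      (volume.restrict {z : Fin n → ℝ | ∀ c, -(L / 2) < z c ∧ z c ≤ L / 2}) volume := by
  have h := measurePreserving_pi
    (fun _ : Fin n => (volume : Measure ℝ).restrict (Set.Ioc (-(L / 2)) (-(L / 2) + L)))
    (fun _ : Fin n => (volume : Measure (AddCircle L)))
    (f := fun _ t => (t : AddCircle L)) (fun _ => AddCircle.measurePreserving_mk L (-(L / 2)))
  rw [dom_eq, volume_pi, Measure.restrict_pi_pi]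
  exact h

lemma norm_co (L : ℝ) [hL : Fact (0 < L)] (t : ℝ) (ht : |t| ≤ L / 2) :
    ‖(t : AddCircle L)‖ = |t| := by
  rw [AddCircle.norm_coe_eq_abs_iff (p := L) (hp := hL.out.ne')]
  rwa [abs_of_pos hL.out]

lemma sec_meas (f : Tor n L × Tor n L → ℝ≥0∞) (hf : Measurable f) (x : Tor n L) :
    Measurable fun y : Tor n L => f (x, y) := hf.comp measurable_prodMk_left

lemma add_meas (f : Tor n L → ℝ≥0∞) (hf : Measurable f) (x : Tor n L) :
    Measurable fun y : Tor n L => f (y + x) := hf.comp (measurable_add_const x)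

theorem proof_tf : S_TF := by
  intro n L hL
  have hL0 : 0 < L := hL.out
  have hmp := mp_pr n L
  have h4 : ∀ f : Tor n L → ℝ≥0∞, Measurable f →
    ∫⁻ x, f x = ∫⁻ z in {z : Fin n → ℝ | ∀ c, -(L / 2) < z c ∧ z c ≤ L / 2}, f (pr L z) := by
    intro f hf
    exact (hmp.lintegral_comp hf).symm
  have h5 : ∀ f : Tor n L → ℝ≥0∞, Measurable f → ∀ h, ∫⁻ x, f (x + h) = ∫⁻ x, f x := by
    intro f _ h
    exact lintegral_add_right_eq_self f h
  have h8 : ∀ v : ℝ → ℝ≥0∞, Measurable v →
      Measurable (fun p : Tor n L × Tor n L => v (tdist p.1 p.2)) := by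
    intro v hv
    refine hv.comp ?_
    unfold tdist
    have : Continuous fun p : Tor n L × Tor n L => √(∑ c, ‖p.1 c - p.2 c‖ ^ 2) := by
      fun_prop
    exact this.measurable
  refine ⟨?_, ?_, ?_, h4, h5, ?_, ?_, fun v hv => ⟨h8 v hv, fun x => ?_⟩⟩
  · rw [volume_pi, Measure.pi_univ]
    simp only [AddCircle.measure_univ, Finset.prod_const, Finset.card_univ, Fintype.card_fin]
    rw [ENNReal.ofReal_pow hL0.le]
  · rw [measurable_pi_iff]
    intro c
    exact AddCircle.measurable_mk'.comp (measurable_pi_apply c)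
  · intro z z'
    ext c
    simp [pr]
  · intro z hz c
    exact norm_co L (z c) (hz c)
  · intro x
    have hc : ∀ c, ∃ t : ℝ, |t| ≤ L / 2 ∧ x c = (t : AddCircle L) := by
      intro c
      refine ⟨(AddCircle.equivIoc L (-(L / 2)) (x c) : ℝ), ?_, ?_⟩
      · have := (AddCircle.equivIoc L (-(L / 2)) (x c)).2
        rw [Set.mem_Ioc] at this
        rw [abs_le]
        constructor <;> linarith [this.1, this.2]
      · exact (AddCircle.coe_equivIoc (p := L) (a := -(L / 2))).symm
    choose t ht1 ht2 using hc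
    refine ⟨t, fun c => ⟨?_, ht1 c⟩, ?_⟩
    · rw [ht2 c, norm_co L (t c) (ht1 c)]
    · ext c
      exact ht2 c
  · have hm : Measurable fun y : Tor n L => v (tdist x y) :=
      sec_meas (fun p => v (tdist p.1 p.2)) (h8 v hv) x
    have e1 : ∫⁻ y, v (tdist x (y + x)) = ∫⁻ y, v (tdist x y) :=
      h5 (fun y => v (tdist x y)) hm x
    have hm2 : Measurable fun y : Tor n L => v (tdist x (y + x)) :=
      add_meas (fun y => v (tdist x y)) hm x
    have e2 := h4 (fun y => v (tdist x (y + x))) hm2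
    have hms : MeasurableSet {z : Fin n → ℝ | ∀ c, -(L / 2) < z c ∧ z c ≤ L / 2} := by
      rw [dom_eq]
      exact MeasurableSet.univ_pi fun _ => measurableSet_Ioc
    calc ∫⁻ y, v (tdist x y) = ∫⁻ z in {z : Fin n → ℝ | ∀ c, -(L / 2) < z c ∧ z c ≤ L / 2},
            v (tdist x (pr L z + x)) := e1.symm.trans e2
      _ = ∫⁻ z in {z : Fin n → ℝ | ∀ c, -(L / 2) < z c ∧ z c ≤ L / 2}, v (el z) := by
          refine setLIntegral_congr_fun hms fun z hz => ?_
          show v (tdist x (pr L z + x)) = v (el z)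
          congr 1
          unfold tdist el
          congr 1
          refine Finset.sum_congr rfl fun c _ => ?_
          have e : x c - (pr L z + x) c = -((z c : ℝ) : AddCircle L) := by
            simp [pr]
          rw [e, norm_neg, norm_co L (z c) (abs_le.2 ⟨(hz c).1.le, (hz c).2⟩), sq_abs]
      _ ≤ ∫⁻ z : Fin n → ℝ, v (el z) := setLIntegral_le_lintegral _ _

end Pool.Agent.W135.CB
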