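import Pool.Agent.W525.CB.Stm

/-! Project CB: comparison of the volume forms for any two charts, from adjacent transpositions. -/

open AlgebraicGeometry CategoryTheory Order

namespace Pool.Agent.W135.CB.VOL

open Pool.Agent.W525.CB

theorem EqPM.step {L : Type} [Field L] {a b c g₁ gs gt : L} (hs : gs ≠ 0)
    (h1 : EqPM (b * g₁) (a * gs)) (h2 : EqPM (c * gs) (b * gt)) : EqPM (c * g₁) (a * gt) := by
  unfold EqPM at *
  rcases h1 with h1 | h1 <;> rcases h2 with h2 | h2
  · left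
    apply mul_left_cancel₀ hs
    linear_combination g₁ * h2 + gt * h1
  · right
    apply mul_left_cancel₀ hs
    linear_combination g₁ * h2 - gt * h1
  · right
    apply mul_left_cancel₀ hs
    linear_combination g₁ * h2 + gt * h1
  · left
    apply mul_left_cancel₀ hs
    linear_combination g₁ * h2 - gt * h1

theorem step_all (h01 : S_V01) (h12 : S_V12) (h23 : S_V23) (hB : S_VBIG) (n : ℕ) (hn : 1 ≤ n)
    (i : Fin (n + 2)) : VolStep n (Equiv.swap i.castSucc i.succ) := by
  obtain ⟨i, hi⟩ := i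
  match i, hi with
  | 0, hi =>
    have e1 : (⟨0, hi⟩ : Fin (n + 2)).castSucc = 0 := rfl
    have e2 : (⟨0, hi⟩ : Fin (n + 2)).succ = 1 := Fin.ext (by simp)
    rw [e1, e2]
    exact h01 n hn
  | 1, hi =>
    have e1 : (⟨1, hi⟩ : Fin (n + 2)).castSucc = 1 := Fin.ext (by simp)
    have e2 : (⟨1, hi⟩ : Fin (n + 2)).succ = 2 := Fin.ext (by
      rw [Fin.val_two]; rfl)
    rw [e1, e2]
    exact h12 n hn
  | 2, hi =>
    have e1 : (⟨2, hi⟩ : Fin (n + 2)).castSucc = 2 := Fin.ext (by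
      rw [Fin.val_two]; rfl)
    have e2 : (⟨2, hi⟩ : Fin (n + 2)).succ = (⟨0, hn⟩ : Fin n).succ.succ.succ := Fin.ext rfl
    rw [e1, e2]
    exact h23 n _
  | k + 3, hi =>
    have e1 : (⟨k + 3, hi⟩ : Fin (n + 2)).castSucc = (⟨k, by omega⟩ : Fin n).succ.succ.succ :=
      Fin.ext rfl
    have e2 : (⟨k + 3, hi⟩ : Fin (n + 2)).succ = (⟨k + 1, by omega⟩ : Fin n).succ.succ.succ :=
      Fin.ext rfl
    rw [e1, e2]
    refine hB n _ _ ?_
    intro h
    have := congrArg Fin.val h
    simp at this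

theorem main : S_REL → S_V01 → S_V12 → S_V23 → S_VBIG → S_VOL := by
  intro hR h01 h12 h23 hB n L _ _ _ x y hn hD σ A
  have h10 : (1 : Fin (n + 3)) ≠ 0 := by
    intro h
    have := congrArg Fin.val h
    simp at this
  have h12' : (1 : Fin (n + 3)) ≠ 2 := by
    intro h
    have := congrArg Fin.val h
    rw [Fin.val_two] at this
    simp at this
  have hww : ∀ τ : Equiv.Perm (Fin (n + 3)), ww x y τ 2 ≠ 0 := by
    intro τ
    rw [(hR n L x y hn hD τ).1 2]
    exact div_ne_zero (hD.nu _ _ fun h => h12' (τ.injective h))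
      (hD.nu _ _ fun h => h10 (τ.injective h))
  have hg : ∀ τ : Equiv.Perm (Fin (n + 3)),
      ww x y τ 2 ^ (n + 2) * x (τ 0) ^ (n + 1) ≠ 0 := fun τ =>
    mul_ne_zero (pow_ne_zero _ (hww τ)) (pow_ne_zero _ (hD.nx _))
  have hmem : σ ∈ Submonoid.closure
      (Set.range fun i : Fin (n + 2) => Equiv.swap i.castSucc i.succ) := by
    rw [Equiv.Perm.mclosure_swap_castSucc_succ]
    trivial
  have key : EqPM (A (cfam x y σ) * (ww x y 1 2 ^ (n + 2) *
      x ((1 : Equiv.Perm (Fin (n + 3))) 0) ^ (n + 1)))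
      (A (cfam x y 1) * (ww x y σ 2 ^ (n + 2) * x (σ 0) ^ (n + 1))) := by
    induction hmem using Submonoid.closure_induction_right with
    | one => exact Or.inl rfl
    | mul_right σ _ τ hτ ih =>
      obtain ⟨i, rfl⟩ := hτ
      exact EqPM.step (hg σ) ih (step_all h01 h12 h23 hB n hn i L x y hn hD σ A)
  exact key

end Pool.Agent.W135.CB.VOL
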